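import Pool.Agent.H6.RCQ.Stmts5

/-!
# Project RCQ, module CH: relative cliques are the pairwise linked sets
-/

set_option autoImplicit false

namespace Pool.Agent.H79.RCQ.CH

open Pool.Agent.H6.RCQ
open Classical

theorem flip_flip' {n m : ℕ} (t : Col n m) : H6.RCQ.flip (H6.RCQ.flip t) = t := by
  rcases t with ⟨a, b⟩ | j
  · simp [H6.RCQ.flip]
  · simp [H6.RCQ.flip]

theorem flip_inj {n m : ℕ} {s t : Col n m} (h : H6.RCQ.flip s = H6.RCQ.flip t) : s = t := by
  rw [← flip_flip' s, h, flip_flip']

/-- the colours of the graph in which `v` is identified with `u` -/
noncomputable def dd {n m : ℕ} {V : Type} (c : V → V → Option (Col n m)) (u v a b : V) :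
    Option (Col n m) :=
  if a = v ∨ b = v then none else
  if a = u then (if b = u then none else (c u b).or (c v b)) else
  if b = u then (c a u).or (c a v) else c a b

theorem ch : CHStmt := by
  intro n m V c R hG
  obtain ⟨h0, hsym⟩ := hG
  constructor
  · intro hR u hu v hv huv
    by_contra hno
    push Not at hno
    obtain ⟨hcuv, hw⟩ := hno
    have hcvu : c v u = none := by rw [hsym u v, hcuv]; rfl
    have hinj := hR V (dd c u v) ?_ ?_ (fun x => if x = v then u else x) ?_
    · have := hinj (Finset.mem_coe.2 hu) (Finset.mem_coe.2 hv) (by simp [huv])
      exact huv this
    · intro w
      unfold dd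
      by_cases h1 : w = v
      · simp [h1]
      · by_cases h2 : w = u
        · simp [h1, h2]
        · simp only [h1, h2, or_self, if_false]
          exact h0 w
    · intro w x
      unfold dd
      by_cases hwv : w = v
      · simp [hwv]
      by_cases hxv : x = v
      · simp [hxv]
      by_cases hwu : w = u
      · by_cases hxu : x = u
        · simp [hwu, hxu]
        · simp only [hwv, hxv, hwu, hxu, or_self, if_false, if_true]
          subst hwu
          simp only [hwv, or_self, if_false]
          rw [hsym w x, hsym v x]
          rcases c w x with _ | s <;> simp
      · by_cases hxu : x = u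
        · simp only [hwv, hxv, hwu, hxu, or_self, if_false, if_true]
          subst hxu
          simp only [hxv, or_self, if_false]
          rw [hsym w x, hsym w v]
          rcases c w x with _ | s <;> simp
        · simp only [hwv, hxv, hwu, hxu, or_self, if_false]
          exact hsym w x
    · intro a b t hab
      have huv' : ¬ u = v := huv
      by_cases hav : a = v
      · subst hav
        by_cases hba : b = a
        · rw [hba, h0] at hab; cases hab
        by_cases hbu : b = u
        · rw [hbu, hcvu] at hab; cases hab
        simp only [dd, if_true, hba, if_false, huv', or_self, hbu]
        rcases hs : c u b with _ | s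
        · simpa using hab
        · have h1 := hw b (by rw [hsym u b, hs]; simp) (by rw [hsym a b, hab]; simp)
          rw [hsym u b, hsym a b, hs, hab] at h1
          simp only [Option.map_some, Option.some.injEq] at h1
          simp [flip_inj h1]
      · by_cases hbv : b = v
        · subst hbv
          by_cases hau : a = u
          · rw [hau, hcuv] at hab; cases hab
          simp only [dd, if_true, hav, if_false, huv', or_self, hau]
          rcases hs : c a u with _ | s
          · simpa using hab
          · have h1 := hw a (by rw [hs]; simp) (by rw [hab]; simp)
            rw [hs, hab] at h1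
            simp only [Option.some.injEq] at h1
            simp [h1]
        · simp only [dd, hav, hbv, if_false, or_self]
          by_cases hau : a = u
          · by_cases hbu : b = u
            · rw [hau, hbu, h0] at hab; cases hab
            · rw [hau] at hab
              simp [hau, hbu, hab]
          · by_cases hbu : b = u
            · rw [hbu] at hab
              simp [hau, hbu, hab]
            · simp [hau, hbu, hab]
  · intro hPL W d hd0 _ f hf u hu v hv huv
    by_contra hne
    rcases hPL u hu v hv hne with h | ⟨w, h1, h2, h3⟩
    · rcases hc : c u v with _ | t
      · exact h hc
      · have := hf u v t hc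
        rw [huv, hd0] at this
        cases this
    · rcases hc1 : c w u with _ | s
      · exact h1 hc1
      rcases hc2 : c w v with _ | t
      · exact h2 hc2
      have e1 := hf w u s hc1
      have e2 := hf w v t hc2
      rw [huv, e2] at e1
      apply h3
      rw [hc1, hc2, e1]

end Pool.Agent.H79.RCQ.CH
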