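import Pool.Agent.H6.RCQ.Stmts5
import Pool.Agent.H64.Rcr.G13

/-!
# Project RCQ, module TP4: grids are contained in triangulated spheres
-/

set_option autoImplicit false

namespace Pool.Agent.H79.RCQ.TP4

open Pool.Agent.H6.RCQ
open Pool.Agent.H3.RCR
open Classical

/-- integer coordinates of the points -/
def q (n k : ℕ) : ℤ × ℤ :=
  if k < n * n then (((k / n : ℕ) : ℤ), ((k % n : ℕ) : ℤ)) else
  if k = n * n then (-1, -1) else
  if k = n * n + 1 then (-1, 2 * (n : ℤ) + 1) else (2 * (n : ℤ) + 1, -1)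

/-- the points -/
def pp (n k : ℕ) : Pt := (((q n k).1 : ℝ), ((q n k).2 : ℝ))

/-- adjacent integer points -/
def Nb (a b : ℤ × ℤ) : Prop :=
  (a.1 = b.1 ∧ (a.2 + 1 = b.2 ∨ b.2 + 1 = a.2)) ∨ (a.2 = b.2 ∧ (a.1 + 1 = b.1 ∨ b.1 + 1 = a.1))

theorem nb_ne {a b : ℤ × ℤ} (h : Nb a b) : a ≠ b := by
  rintro rfl
  rcases h with ⟨_, h⟩ | ⟨_, h⟩ <;> omega

/-- one coordinate of an open segment between consecutive integers -/
theorem coord_lt {a b : ℤ} {z s t : ℝ} (hs : 0 < s) (ht : 0 < t) (hst : s + t = 1)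
    (hz : s * a + t * b = z) (hab : a + 1 = b ∨ b + 1 = a) :
    ((a = ⌊z⌋ ∧ b = ⌊z⌋ + 1) ∨ (b = ⌊z⌋ ∧ a = ⌊z⌋ + 1)) ∧ ∀ k : ℤ, (k : ℝ) ≠ z := by
  have key : ∀ m : ℤ, (m : ℝ) < z → z < m + 1 → ⌊z⌋ = m ∧ ∀ k : ℤ, (k : ℝ) ≠ z := by
    intro m h1 h2
    refine ⟨Int.floor_eq_iff.2 ⟨h1.le, h2⟩, ?_⟩
    intro k hk
    rw [← hk] at h1 h2
    have h3 : m < k := by exact_mod_cast h1
    have h4 : k < m + 1 := by exact_mod_cast h2
    omega
  rcases hab with h | h
  · have hb : (b : ℝ) = a + 1 := by rw [← h]; push_cast; ring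
    have hz' : z = a + t := by rw [← hz, hb]; have : s = 1 - t := by linarith
                               rw [this]; ring
    obtain ⟨h1, h2⟩ := key a (by rw [hz']; linarith) (by rw [hz']; linarith)
    exact ⟨Or.inl ⟨h1.symm, by omega⟩, h2⟩
  · have hb : (a : ℝ) = b + 1 := by rw [← h]; push_cast; ring
    have hz' : z = b + s := by rw [← hz, hb]; have : t = 1 - s := by linarith
                               rw [this]; ring
    obtain ⟨h1, h2⟩ := key b (by rw [hz']; linarith) (by rw [hz']; linarith)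
    exact ⟨Or.inr ⟨h1.symm, by omega⟩, h2⟩

theorem seg_cases {a b : ℤ × ℤ} {z : ℝ × ℝ} (h : Nb a b)
    (hz : z ∈ openSegment ℝ ((a.1 : ℝ), (a.2 : ℝ)) ((b.1 : ℝ), (b.2 : ℝ))) :
    (a.1 = b.1 ∧ (a.1 : ℝ) = z.1 ∧
      ((a.2 = ⌊z.2⌋ ∧ b.2 = ⌊z.2⌋ + 1) ∨ (b.2 = ⌊z.2⌋ ∧ a.2 = ⌊z.2⌋ + 1)) ∧
      ∀ k : ℤ, (k : ℝ) ≠ z.2) ∨
    (a.2 = b.2 ∧ (a.2 : ℝ) = z.2 ∧
      ((a.1 = ⌊z.1⌋ ∧ b.1 = ⌊z.1⌋ + 1) ∨ (b.1 = ⌊z.1⌋ ∧ a.1 = ⌊z.1⌋ + 1)) ∧
      ∀ k : ℤ, (k : ℝ) ≠ z.1) := by
  obtain ⟨s, t, hs, ht, hst, hz⟩ := hz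
  have h1 : s * (a.1 : ℝ) + t * (b.1 : ℝ) = z.1 := by
    rw [← hz]; simp
  have h2 : s * (a.2 : ℝ) + t * (b.2 : ℝ) = z.2 := by
    rw [← hz]; simp
  rcases h with ⟨he, hn⟩ | ⟨he, hn⟩
  · left
    refine ⟨he, ?_, coord_lt hs ht hst h2 hn⟩
    rw [← h1, ← he, ← add_mul, hst, one_mul]
  · right
    refine ⟨he, ?_, coord_lt hs ht hst h1 hn⟩
    rw [← h2, ← he, ← add_mul, hst, one_mul]

/-- adjacent integer points with a common inner point of the segments are equal pairs -/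
theorem nb_cross {a b c d : ℤ × ℤ} {z : ℝ × ℝ} (h : Nb a b) (h' : Nb c d)
    (hz : z ∈ openSegment ℝ ((a.1 : ℝ), (a.2 : ℝ)) ((b.1 : ℝ), (b.2 : ℝ)))
    (hz' : z ∈ openSegment ℝ ((c.1 : ℝ), (c.2 : ℝ)) ((d.1 : ℝ), (d.2 : ℝ))) :
    (a = c ∧ b = d) ∨ (a = d ∧ b = c) := by
  rcases seg_cases h hz with ⟨e1, e2, e3, e4⟩ | ⟨e1, e2, e3, e4⟩ <;>
    rcases seg_cases h' hz' with ⟨g1, g2, g3, g4⟩ | ⟨g1, g2, g3, g4⟩
  · have h5 : a.1 = c.1 := by
      have : (a.1 : ℝ) = c.1 := by rw [e2, g2]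
      exact_mod_cast this
    rcases e3 with ⟨e3, e5⟩ | ⟨e3, e5⟩ <;> rcases g3 with ⟨g3, g5⟩ | ⟨g3, g5⟩
    · exact Or.inl ⟨Prod.ext (by omega) (by omega), Prod.ext (by omega) (by omega)⟩
    · exact Or.inr ⟨Prod.ext (by omega) (by omega), Prod.ext (by omega) (by omega)⟩
    · exact Or.inr ⟨Prod.ext (by omega) (by omega), Prod.ext (by omega) (by omega)⟩
    · exact Or.inl ⟨Prod.ext (by omega) (by omega), Prod.ext (by omega) (by omega)⟩
  · exact absurd e2 (g4 a.1)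
  · exact absurd g2 (e4 c.1)
  · have h5 : a.2 = c.2 := by
      have : (a.2 : ℝ) = c.2 := by rw [e2, g2]
      exact_mod_cast this
    rcases e3 with ⟨e3, e5⟩ | ⟨e3, e5⟩ <;> rcases g3 with ⟨g3, g5⟩ | ⟨g3, g5⟩
    · exact Or.inl ⟨Prod.ext (by omega) (by omega), Prod.ext (by omega) (by omega)⟩
    · exact Or.inr ⟨Prod.ext (by omega) (by omega), Prod.ext (by omega) (by omega)⟩
    · exact Or.inr ⟨Prod.ext (by omega) (by omega), Prod.ext (by omega) (by omega)⟩
    · exact Or.inl ⟨Prod.ext (by omega) (by omega), Prod.ext (by omega) (by omega)⟩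

theorem q_lt {n k : ℕ} (h : k < n * n) : q n k = (((k / n : ℕ) : ℤ), ((k % n : ℕ) : ℤ)) := by
  simp [q, h]

theorem q_A (n : ℕ) : q n (n * n) = (-1, -1) := by simp [q]

theorem q_B (n : ℕ) : q n (n * n + 1) = (-1, 2 * (n : ℤ) + 1) := by simp [q]

theorem q_C (n : ℕ) : q n (n * n + 2) = (2 * (n : ℤ) + 1, -1) := by simp [q]

theorem q_bd {n k : ℕ} (h : k < n * n) : k / n < n ∧ k % n < n := by
  have hn : 0 < n := by
    rcases Nat.eq_zero_or_pos n with h0 | h0
    · rw [h0] at h; omega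
    · exact h0
  exact ⟨Nat.div_lt_of_lt_mul h, Nat.mod_lt _ hn⟩

theorem q_nn {n k : ℕ} (h : k < n * n) : 0 ≤ (q n k).1 ∧ 0 ≤ (q n k).2 := by
  rw [q_lt h]
  exact ⟨Int.natCast_nonneg _, Int.natCast_nonneg _⟩

theorem q_inj {n : ℕ} : ∀ a < n * n + 3, ∀ b < n * n + 3, q n a = q n b → a = b := by
  have key : ∀ a < n * n + 3, a < n * n ∨ a = n * n ∨ a = n * n + 1 ∨ a = n * n + 2 := by
    intro a ha; omega
  intro a ha b hb hab
  rcases key a ha with h1 | h1 | h1 | h1 <;> rcases key b hb with h2 | h2 | h2 | h2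
  · rw [q_lt h1, q_lt h2, Prod.mk.injEq] at hab
    have e1 : a / n = b / n := by exact_mod_cast hab.1
    have e2 : a % n = b % n := by exact_mod_cast hab.2
    rw [← Nat.div_add_mod a n, ← Nat.div_add_mod b n, e1, e2]
  · have h3 := q_nn h1; rw [hab, h2, q_A] at h3; simp at h3
  · have h3 := q_nn h1; rw [hab, h2, q_B] at h3; simp at h3
  · have h3 := q_nn h1; rw [hab, h2, q_C] at h3; simp at h3
  · have h3 := q_nn h2; rw [← hab, h1, q_A] at h3; simp at h3
  · omega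
  · rw [h1, h2, q_A, q_B, Prod.mk.injEq] at hab
    have := hab.2; omega
  · rw [h1, h2, q_A, q_C, Prod.mk.injEq] at hab
    have := hab.1; omega
  · have h3 := q_nn h2; rw [← hab, h1, q_B] at h3; simp at h3
  · rw [h1, h2, q_A, q_B, Prod.mk.injEq] at hab
    have := hab.2; omega
  · omega
  · rw [h1, h2, q_B, q_C, Prod.mk.injEq] at hab
    have := hab.2; omega
  · have h3 := q_nn h2; rw [← hab, h1, q_C] at h3; simp at h3
  · rw [h1, h2, q_A, q_C, Prod.mk.injEq] at hab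
    have := hab.1; omega
  · rw [h1, h2, q_B, q_C, Prod.mk.injEq] at hab
    have := hab.2; omega
  · omega

theorem tp4 : TP4Stmt := by
  intro n
  have hex : ∃ F, Sph F ∧ Real F (n * n, n * n + 1, n * n + 2) (pp n) ∧
      verts F = Finset.range (n * n + 3) ∧
      ∀ e ∈ ((Finset.range (n * n)) ×ˢ (Finset.range (n * n))).filter
        (fun e => Nb (q n e.1) (q n e.2)), Adj F e.1 e.2 := by
    apply Pool.Agent.H64.Rcr.g13
    · intro x hx
      rw [Finset.mem_range]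
      rcases hx with h | h | h <;> simp only at h <;> omega
    · simp only [pp, q_A, q_B, q_C, orient, dt, Prod.fst_sub, Prod.snd_sub]
      push_cast
      have : (0 : ℝ) ≤ n := Nat.cast_nonneg n
      nlinarith
    · intro a ha b hb hab
      rw [Finset.mem_coe, Finset.mem_range] at ha hb
      apply q_inj a ha b hb
      simp only [pp, Prod.mk.injEq] at hab
      exact Prod.ext (by exact_mod_cast hab.1) (by exact_mod_cast hab.2)
    · intro s hs hns
      rw [Finset.mem_range] at hs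
      have hlt : s < n * n := by
        by_contra hge
        apply hns
        unfold isV
        simp only
        omega
      obtain ⟨h1, h2⟩ := q_bd hlt
      have h0 : (0 : ℝ) ≤ n := Nat.cast_nonneg n
      have h1' : ((s / n : ℕ) : ℝ) + 1 ≤ n := by exact_mod_cast h1
      have h2' : ((s % n : ℕ) : ℝ) + 1 ≤ n := by exact_mod_cast h2
      have h3' : (0 : ℝ) ≤ ((s / n : ℕ) : ℝ) := Nat.cast_nonneg _
      have h4' : (0 : ℝ) ≤ ((s % n : ℕ) : ℝ) := Nat.cast_nonneg _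
      simp only [InN, pp, q_A, q_B, q_C, q_lt hlt, orient, dt, Prod.fst_sub, Prod.snd_sub,
        Int.cast_natCast, Int.cast_neg, Int.cast_one, Int.cast_add, Int.cast_mul, Int.cast_ofNat]
      generalize ((s / n : ℕ) : ℝ) = X at h1' h3' ⊢
      generalize ((s % n : ℕ) : ℝ) = Y at h2' h4' ⊢
      refine ⟨by nlinarith, by nlinarith, by nlinarith⟩
    · intro e he
      rw [Finset.mem_filter, Finset.mem_product, Finset.mem_range, Finset.mem_range] at he
      obtain ⟨⟨h1, h2⟩, h3⟩ := he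
      refine ⟨Finset.mem_range.2 (by omega), Finset.mem_range.2 (by omega), ?_, ?_⟩
      · intro h
        exact nb_ne h3 (by rw [h])
      · intro s _ hs
        rcases seg_cases h3 hs with ⟨-, -, -, h⟩ | ⟨-, -, -, h⟩
        · exact h (q n s).2 rfl
        · exact h (q n s).1 rfl
    · intro e he f hf z hz hz'
      rw [Finset.mem_filter, Finset.mem_product, Finset.mem_range, Finset.mem_range] at he hf
      obtain ⟨⟨h1, h2⟩, h3⟩ := he
      obtain ⟨⟨g1, g2⟩, g3⟩ := hf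
      rcases nb_cross h3 g3 hz hz' with ⟨h, h'⟩ | ⟨h, h'⟩
      · left
        exact Prod.ext (q_inj _ (by omega) _ (by omega) h) (q_inj _ (by omega) _ (by omega) h')
      · right
        exact Prod.ext (q_inj _ (by omega) _ (by omega) h) (q_inj _ (by omega) _ (by omega) h')
  obtain ⟨F, hF, -, -, hE⟩ := hex
  refine ⟨F, hF, fun a => n * a.1.val + a.2.val, ?_, ?_⟩
  · rintro ⟨a, b⟩ ⟨c, d⟩ h
    simp only at h
    have hn : 0 < n := a.pos
    have h1 : (n * a.val + b.val) / n = a.val := by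
      rw [Nat.mul_add_div hn, Nat.div_eq_of_lt b.2, add_zero]
    have h2 : (n * c.val + d.val) / n = c.val := by
      rw [Nat.mul_add_div hn, Nat.div_eq_of_lt d.2, add_zero]
    have h3 : (n * a.val + b.val) % n = b.val := by
      rw [Nat.mul_add_mod, Nat.mod_eq_of_lt b.2]
    have h4 : (n * c.val + d.val) % n = d.val := by
      rw [Nat.mul_add_mod, Nat.mod_eq_of_lt d.2]
    rw [h, h2] at h1
    rw [h, h4] at h3
    exact Prod.ext (Fin.ext h1.symm) (Fin.ext h3.symm)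
  · rintro ⟨a, b⟩ ⟨c, d⟩ h
    have hn : 0 < n := a.pos
    have hlt : ∀ (x y : Fin n), n * x.val + y.val < n * n := by
      intro x y
      have hx := x.2
      have hy := y.2
      calc n * x.val + y.val < n * x.val + n := by omega
        _ = n * (x.val + 1) := by ring
        _ ≤ n * n := Nat.mul_le_mul_left n hx
    have hq : ∀ (x y : Fin n), q n (n * x.val + y.val) = ((x.val : ℤ), (y.val : ℤ)) := by
      intro x y
      rw [q_lt (hlt x y)]
      rw [Nat.mul_add_div hn, Nat.div_eq_of_lt y.2, add_zero, Nat.mul_add_mod,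
        Nat.mod_eq_of_lt y.2]
    refine hE (n * a.val + b.val, n * c.val + d.val) ?_
    rw [Finset.mem_filter]
    refine ⟨Finset.mem_product.2 ⟨Finset.mem_range.2 (hlt a b), Finset.mem_range.2 (hlt c d)⟩, ?_⟩
    show Nb (q n (n * a.val + b.val)) (q n (n * c.val + d.val))
    rw [hq, hq]
    rcases h with ⟨h1, h2⟩ | ⟨h1, h2⟩
    · left
      simp only at h1 h2
      refine ⟨by rw [h1], ?_⟩
      rcases h2 with h2 | h2
      · left; simp only; omega
      · right; simp only; omega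
    · right
      simp only at h1 h2
      refine ⟨by rw [h1], ?_⟩
      rcases h2 with h2 | h2
      · left; simp only; omega
      · right; simp only; omega

end Pool.Agent.H79.RCQ.TP4
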