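import Pool.Agent.H6.RCQ.Stmts1
import Pool.Agent.H6.RCQ.Stmts4

/-!
# Project RCQ, module W6S: windows for degree six
-/

set_option autoImplicit false

namespace Pool.Agent.H79.RCQ.W6S

open Pool.Agent.H6.RCQ
open Pool.Agent.H39.RC

/-- `i, k` and `j, l` cross in the cyclic order -/
def Xing (i j k l : ℕ) : Prop :=
  (i < j ∧ j < k ∧ (k < l ∨ l < i)) ∨ (k < j ∧ j < i ∧ (i < l ∨ l < k)) ∨
  (i < l ∧ l < k ∧ (k < j ∨ j < i)) ∨ (k < l ∧ l < i ∧ (i < j ∨ j < k))

instance (i j k l : ℕ) : Decidable (Xing i j k l) := by unfold Xing; infer_instance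

theorem adj_index0 : ∀ i j : Fin 6, i ≠ j → (j.1 = (i.1 + 1) % 6 ∨ i.1 = (j.1 + 1) % 6) ∨
    ∃ k : Fin 6, ∃ l : Fin 6, k ≠ i ∧ k ≠ j ∧ l ≠ i ∧ l ≠ j ∧ Xing i.1 k.1 j.1 l.1 := by
  decide

theorem adj_index (i : ℕ) (hi : i < 6) (j : ℕ) (hj : j < 6) (hne : i ≠ j) :
    (j = (i + 1) % 6 ∨ i = (j + 1) % 6) ∨
    ∃ k < 6, ∃ l < 6, k ≠ i ∧ k ≠ j ∧ l ≠ i ∧ l ≠ j ∧ Xing i k j l := by
  rcases adj_index0 ⟨i, hi⟩ ⟨j, hj⟩ (fun h => hne (congrArg Fin.val h)) with h |
    ⟨⟨k, hk⟩, ⟨l, hl⟩, k1, k2, l1, l2, hX⟩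
  · exact Or.inl h
  · exact Or.inr ⟨k, hk, l, hl, fun h => k1 (Fin.ext h), fun h => k2 (Fin.ext h),
      fun h => l1 (Fin.ext h), fun h => l2 (Fin.ext h), hX⟩

open Classical

variable {V : Type} {G : SimpleGraph V}

/-- a connected set containing `a` contains a connected set avoiding `a` and attached to `a` -/
theorem cut_off {Z : Set V} {w a : V} (hZ : Con G Z) (hw : w ∈ Z) (ha : a ∈ Z) (hne : w ≠ a) :
    ∃ Z' : Set V, Z' ⊆ Z \ {a} ∧ w ∈ Z' ∧ Con G Z' ∧ ∃ z ∈ Z', G.Adj z a := by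
  obtain ⟨p⟩ := hZ.preconnected ⟨w, hw⟩ ⟨a, ha⟩
  have key : ∀ (u v : Z) (p : (G.induce Z).Walk u v), (u : V) ≠ v →
      ∃ Z' : Set V, Z' ⊆ Z \ {(v : V)} ∧ (u : V) ∈ Z' ∧ Con G Z' ∧ ∃ z ∈ Z', G.Adj z v := by
    intro u v p
    induction p with
    | nil => intro h; exact absurd rfl h
    | @cons u v' v h q ih =>
      intro huv
      have hadj : G.Adj (u : V) (v' : V) := h
      by_cases hv : (v' : V) = v
      · refine ⟨{(u : V)}, ?_, rfl, con_single _, u, rfl, by rw [← hv]; exact hadj⟩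
        intro z hz
        rw [Set.mem_singleton_iff] at hz
        rw [hz]
        exact ⟨u.2, huv⟩
      · obtain ⟨Z', h1, h2, h3, z, hz, h4⟩ := ih hv
        refine ⟨insert (u : V) Z', ?_, Set.mem_insert _ _, h3.insert h2 hadj.symm, z,
          Set.mem_insert_of_mem _ hz, h4⟩
        intro y hy
        rcases Set.mem_insert_iff.1 hy with rfl | hy
        · exact ⟨u.2, huv⟩
        · exact h1 hy
  exact key ⟨w, hw⟩ ⟨a, ha⟩ p hne

theorem jn_symm {X : Set V} {r s : V} (h : Jn G X r s) : Jn G X s r := by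
  obtain ⟨Z, h1, h2, h3, h4⟩ := h
  exact ⟨Z, h2, h1, h3, h4⟩

theorem jn_adj {X : Set V} {r s : V} (h : G.Adj r s) (hr : r ∉ X) (hs : s ∉ X) : Jn G X r s := by
  refine ⟨{r, s}, by simp, by simp, con_pair (Or.inr h), ?_⟩
  intro z hz
  rcases hz with rfl | hz
  · exact hr
  · rw [Set.mem_singleton_iff.1 hz]; exact hs

theorem jn_mid {X : Set V} {r m s : V} (h : G.Adj r m) (h' : G.Adj m s) (hr : r ∉ X) (hm : m ∉ X)
    (hs : s ∉ X) : Jn G X r s := by
  refine ⟨insert r {m, s}, by simp, by simp, (con_pair (Or.inr h')).insert (y := m) (by simp) h.symm,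
    ?_⟩
  intro z hz
  rcases hz with rfl | rfl | hz
  · exact hr
  · exact hm
  · rw [Set.mem_singleton_iff.1 hz]; exact hs

theorem cross {x : V} {Dx : Finset V} {n : ℕ} {t : ℕ → V} (hc : Circ G x Dx n t) {i j k l : ℕ}
    (hi : i < n) (hj : j < n) (hk : k < n) (hl : l < n) (h : Xing i j k l) {P Q : Set V}
    (hP : Con G P) (hQ : Con G Q) (xP : x ∉ P) (xQ : x ∉ Q) (iP : t i ∈ P) (kP : t k ∈ P)
    (jQ : t j ∈ Q) (lQ : t l ∈ Q) : (P ∩ Q).Nonempty := by
  have sw : (Q ∩ P).Nonempty → (P ∩ Q).Nonempty := by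
    rintro ⟨z, h1, h2⟩; exact ⟨z, h2, h1⟩
  rcases h with ⟨h1, h2, h3 | h3⟩ | ⟨h1, h2, h3 | h3⟩ | ⟨h1, h2, h3 | h3⟩ | ⟨h1, h2, h3 | h3⟩
  · exact hc.cr i j k l h1 h2 h3 hl P Q hP hQ xP xQ iP kP jQ lQ
  · exact sw (hc.cr l i j k h3 h1 h2 hk Q P hQ hP xQ xP lQ jQ iP kP)
  · exact hc.cr k j i l h1 h2 h3 hl P Q hP hQ xP xQ kP iP jQ lQ
  · exact sw (hc.cr l k j i h3 h1 h2 hi Q P hQ hP xQ xP lQ jQ kP iP)
  · exact hc.cr i l k j h1 h2 h3 hj P Q hP hQ xP xQ iP kP lQ jQ
  · exact sw (hc.cr j i l k h3 h1 h2 hk Q P hQ hP xQ xP jQ lQ iP kP)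
  · exact hc.cr k l i j h1 h2 h3 hj P Q hP hQ xP xQ kP iP lQ jQ
  · exact sw (hc.cr j k l i h3 h1 h2 hi Q P hQ hP xQ xP jQ lQ kP iP)

theorem win_index (P : ℕ → Prop) (h3 : ∀ i < 6, P i → ¬ P ((i + 3) % 6))
    (h0 : ¬ (P 0 ∧ P 2 ∧ P 4)) (h1 : ¬ (P 1 ∧ P 3 ∧ P 5)) :
    ∃ m < 6, ∀ i < 6, P i → i = m ∨ i = (m + 1) % 6 ∨ i = (m + 2) % 6 := by
  have e0 := h3 0 (by norm_num)
  have e1 := h3 1 (by norm_num)
  have e2 := h3 2 (by norm_num)
  norm_num at e0 e1 e2
  have key : ∀ m < 6, (∀ i < 6, P i → i = m ∨ i = (m + 1) % 6 ∨ i = (m + 2) % 6) →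
      ∃ m < 6, ∀ i < 6, P i → i = m ∨ i = (m + 1) % 6 ∨ i = (m + 2) % 6 :=
    fun m hm h => ⟨m, hm, h⟩
  have six : ∀ m < 6, (¬ P ((m + 3) % 6) ∧ ¬ P ((m + 4) % 6) ∧ ¬ P ((m + 5) % 6)) →
      ∀ i < 6, P i → i = m ∨ i = (m + 1) % 6 ∨ i = (m + 2) % 6 := by
    intro m hm ⟨a, b, c⟩ i hi hPi
    by_contra hno
    push Not at hno
    have : i = (m + 3) % 6 ∨ i = (m + 4) % 6 ∨ i = (m + 5) % 6 := by omega
    rcases this with h | h | h
    · exact a (h ▸ hPi)
    · exact b (h ▸ hPi)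
    · exact c (h ▸ hPi)
  by_cases p0 : P 0 <;> by_cases p1 : P 1 <;> by_cases p2 : P 2
  · exact key 0 (by norm_num) (six 0 (by norm_num) (by norm_num; exact ⟨e0 p0, e1 p1, e2 p2⟩))
  · -- 0, 1, not 2
    by_cases p5 : P 5
    · exact key 5 (by norm_num) (six 5 (by norm_num) (by norm_num; exact ⟨p2, e0 p0, e1 p1⟩))
    · exact key 0 (by norm_num) (six 0 (by norm_num) (by norm_num; exact ⟨e0 p0, e1 p1, p5⟩))
  · -- 0, 2, not 1
    by_cases p4 : P 4
    · exact absurd ⟨p0, p2, p4⟩ h0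
    · exact key 0 (by norm_num) (six 0 (by norm_num) (by norm_num; exact ⟨e0 p0, p4, e2 p2⟩))
  · -- 0, not 1, 2
    exact key 4 (by norm_num) (six 4 (by norm_num) (by norm_num; exact ⟨p1, p2, e0 p0⟩))
  · -- 1, 2, not 0
    by_cases p3 : P 3
    · exact key 1 (by norm_num) (six 1 (by norm_num) (by norm_num; exact ⟨e1 p1, e2 p2, p0⟩))
    · exact key 0 (by norm_num) (six 0 (by norm_num) (by norm_num; exact ⟨p3, e1 p1, e2 p2⟩))
  · -- 1, not 0, 2
    by_cases p3 : P 3
    · by_cases p5 : P 5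
      · exact absurd ⟨p1, p3, p5⟩ h1
      · exact key 1 (by norm_num) (six 1 (by norm_num) (by norm_num; exact ⟨e1 p1, p5, p0⟩))
    · exact key 5 (by norm_num) (six 5 (by norm_num) (by norm_num; exact ⟨p2, p3, e1 p1⟩))
  · -- 2, not 0, 1
    exact key 2 (by norm_num) (six 2 (by norm_num) (by norm_num; exact ⟨e2 p2, p0, p1⟩))
  · exact key 3 (by norm_num) (six 3 (by norm_num) (by norm_num; exact ⟨p0, p1, p2⟩))

/-- the middle vertex between two neighbours of `h` is isolated -/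
theorem iso_mid (hQT : QTStmt) {R : Finset V} {x : V} {t : ℕ → V} (hs : S6 G R 6)
    (hc : Circ G x (D G R x) 6 t) {h : V} (hx : h ≠ x) (hD : h ∉ D G R x) {i j k l m : ℕ}
    (hi : i < 6) (hj : j < 6) (hk : k < 6) (hl : l < 6) (hm : m < 6) (hik : i ≠ k)
    (x1 : Xing i j k l) (x2 : Xing i j k m) (hlm : l ≠ m)
    (ai : G.Adj h (t i)) (ak : G.Adj h (t k)) : Iso G R x h (t i) (t k) (t j) := by
  have tR : ∀ n < 6, t n ∈ R := fun n hn => (Finset.mem_filter.1 (hc.mem n hn)).1
  have tx : ∀ n < 6, G.Adj x (t n) := fun n hn => (Finset.mem_filter.1 (hc.mem n hn)).2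
  have th : ∀ n < 6, t n ≠ h := fun n hn e => hD (e ▸ hc.mem n hn)
  have tt : ∀ a < 6, ∀ b < 6, a ≠ b → t a ≠ t b := fun a ha b hb hab e => hab (hc.inj a ha b hb e)
  have hout : ∀ n < 6, n ≠ i → n ≠ k → t n ∉ Q4 x h (t i) (t k) := by
    intro n hn h1 h2 hmem
    rcases hmem with e | e | e | e
    · exact (tx n hn).ne e.symm
    · exact th n hn e
    · exact tt n hn i hi h1 e
    · exact tt n hn k hk h2 e
  have hne : ∀ {a b c d : ℕ}, Xing a b c d → b ≠ a ∧ b ≠ c ∧ d ≠ a ∧ d ≠ c ∧ b ≠ d := by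
    intro a b c d hX
    unfold Xing at hX
    omega
  obtain ⟨j1, j2, l1, l2, jl⟩ := hne x1
  obtain ⟨-, -, m1, m2, jm⟩ := hne x2
  have hP : Con G (insert (t i) {h, t k}) := (con_pair (Or.inr ak)).insert (y := h) (by simp) ai
  have hno : ∀ n < 6, Xing i j k n → ¬ Jn G (Q4 x h (t i) (t k)) (t j) (t n) := by
    rintro n hn hX ⟨Z, z1, z2, z3, z4⟩
    have xZ : x ∉ Z := fun hxz => z4 x hxz (by simp [Q4])
    have xP : x ∉ (insert (t i) {h, t k} : Set V) := by
      intro hmem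
      rcases hmem with e | e | e
      · exact (tx i hi).ne e
      · exact hx e.symm
      · exact (tx k hk).ne e
    obtain ⟨z, hz1, hz2⟩ := cross hc hi hj hk hn hX hP z3 xP xZ (by simp) (by simp) z1 z2
    apply z4 z hz2
    rcases hz1 with rfl | rfl | hz1
    · simp [Q4]
    · simp [Q4]
    · rw [Set.mem_singleton_iff.1 hz1]; simp [Q4]
  exact (hQT V G R x h (t i) (t k) hs hx.symm (tt i hi k hk hik) (tR i hi) (tR k hk) (tx i hi)
    (tx k hk) ai ak).1 (t j) (tR j hj) (t l) (tR l hl) (t m) (tR m hm) (hout j hj j1 j2)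
    (hout l hl l1 l2) (hout m hm m1 m2) (tt l hl m hm hlm) (hno l hl x1) (hno m hm x2)

theorem no_opp (hQT : QTStmt) {R : Finset V} {x : V} {t : ℕ → V} (hs : S6 G R 6)
    (hc : Circ G x (D G R x) 6 t) {h : V} (hx : h ≠ x) (hD : h ∉ D G R x) {i k j j' l l' : ℕ}
    (hi : i < 6) (hk : k < 6) (hj : j < 6) (hj' : j' < 6) (hl : l < 6) (hl' : l' < 6)
    (hik : i ≠ k) (hjj : j ≠ j') (hll : l ≠ l') (x1 : Xing i j k l) (x2 : Xing i j k l')
    (x3 : Xing i j' k l) (x4 : Xing i j' k l') (ai : G.Adj h (t i)) (ak : G.Adj h (t k)) :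
    False := by
  have tR : ∀ n < 6, t n ∈ R := fun n hn => (Finset.mem_filter.1 (hc.mem n hn)).1
  have tx : ∀ n < 6, G.Adj x (t n) := fun n hn => (Finset.mem_filter.1 (hc.mem n hn)).2
  have tt : ∀ a < 6, ∀ b < 6, a ≠ b → t a ≠ t b := fun a ha b hb hab e => hab (hc.inj a ha b hb e)
  have i1 := iso_mid hQT hs hc hx hD hi hj hk hl hl' hik x1 x2 hll ai ak
  have i2 := iso_mid hQT hs hc hx hD hi hj' hk hl hl' hik x3 x4 hll ai ak
  exact tt j hj j' hj' hjj ((hQT V G R x h (t i) (t k) hs hx.symm (tt i hi k hk hik) (tR i hi)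
    (tR k hk) (tx i hi) (tx k hk) ai ak).2.2 _ _ i1 i2)

/-- no vertex sees three alternate vertices of the cycle -/
theorem no_alt (hQT : QTStmt) (hPE : PE1Stmt) {R : Finset V} {x : V} {t : ℕ → V} (hs : S6 G R 6)
    (hc : Circ G x (D G R x) 6 t) {h : V} (hx : h ≠ x) (hD : h ∉ D G R x) {a b c a' b' c' : ℕ}
    (ha : a < 6) (hb : b < 6) (hcc : c < 6) (ha' : a' < 6) (hb' : b' < 6) (hc' : c' < 6)
    (hab : a ≠ b) (hac : a ≠ c) (hbc : b ≠ c)
    -- a' is between b and c, etc.
    (xa1 : Xing b a' c a) (xa2 : Xing b a' c b') (xb1 : Xing a b' c b) (xb2 : Xing a b' c a')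
    (xc1 : Xing a c' b c) (xc2 : Xing a c' b a')
    (eab : a ≠ b') (eba : b ≠ a') (eca : c ≠ a')
    (aa : G.Adj h (t a)) (ab : G.Adj h (t b)) (ac : G.Adj h (t c)) : False := by
  have tR : ∀ n < 6, t n ∈ R := fun n hn => (Finset.mem_filter.1 (hc.mem n hn)).1
  have tx : ∀ n < 6, G.Adj x (t n) := fun n hn => (Finset.mem_filter.1 (hc.mem n hn)).2
  have th : ∀ n < 6, t n ≠ h := fun n hn e => hD (e ▸ hc.mem n hn)
  have tt : ∀ a < 6, ∀ b < 6, a ≠ b → t a ≠ t b := fun a ha b hb hab e => hab (hc.inj a ha b hb e)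
  -- a vertex w
  have hw : ∃ w ∈ R, w ≠ x ∧ ¬ G.Adj x w ∧ w ≠ h := by
    by_contra hno
    push Not at hno
    have hsub : R ⊆ insert x (insert h (D G R x)) := by
      intro w hw
      by_cases h1 : w = x
      · simp [h1]
      by_cases h2 : G.Adj x w
      · apply Finset.mem_insert_of_mem
        apply Finset.mem_insert_of_mem
        exact Finset.mem_filter.2 ⟨hw, h2⟩
      · simp [hno w hw h1 h2]
    have h1 := Finset.card_le_card hsub
    have h2 := hs.deg x
    have h3 := Finset.card_insert_le x (insert h (D G R x))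
    have h4 := Finset.card_insert_le h (D G R x)
    have h5 := hs.card
    omega
  obtain ⟨w, wR, wx, wa, wh⟩ := hw
  have wt : ∀ n < 6, w ≠ t n := fun n hn e => wa (e ▸ tx n hn)
  -- the general step
  have step : ∀ p q r p' : ℕ, p < 6 → q < 6 → r < 6 → p' < 6 → q ≠ r → p ≠ q → p ≠ r → p' ≠ p →
      G.Adj h (t q) → G.Adj h (t r) → Iso G R x h (t q) (t r) (t p') → p' ≠ q → p' ≠ r →
      Jn G (Q4 x h (t q) (t r)) w (t p) := by
    intro p q r p' hp hq hr hp' hqr hpq hpr hpp aq ar hiso hpq' hpr'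
    by_contra hno
    have hqt := hQT V G R x h (t q) (t r) hs hx.symm (tt q hq r hr hqr) (tR q hq) (tR r hr)
      (tx q hq) (tx r hr) aq ar
    have wQ : w ∉ Q4 x h (t q) (t r) := by
      intro hmem
      rcases hmem with e | e | e | e
      · exact wx e
      · exact wh e
      · exact wt q hq e
      · exact wt r hr e
    have pQ : t p ∉ Q4 x h (t q) (t r) := by
      intro hmem
      rcases hmem with e | e | e | e
      · exact (tx p hp).ne e.symm
      · exact th p hp e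
      · exact tt p hp q hq hpq e
      · exact tt p hp r hr hpr e
    have h1 : ¬ Jn G (Q4 x h (t q) (t r)) w (t p') := by
      intro hj
      exact hiso.2.2 w wR wQ (wt p' hp') (jn_symm hj)
    have h2 := hqt.1 w wR (t p) (tR p hp) (t p') (tR p' hp') wQ pQ hiso.2.1
      (tt p hp p' hp' hpp.symm) hno h1
    exact wt p' hp' (hqt.2.2 _ _ h2 hiso)
  have ia := iso_mid hQT hs hc hx hD hb ha' hcc ha hb' hbc xa1 xa2 eab ab ac
  have ib := iso_mid hQT hs hc hx hD ha hb' hcc hb ha' hac xb1 xb2 eba aa ac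
  have ic := iso_mid hQT hs hc hx hD ha hc' hb hcc ha' hab xc1 xc2 eca aa ab
  have hne : ∀ {a b c d : ℕ}, Xing a b c d → b ≠ a ∧ b ≠ c ∧ d ≠ a ∧ d ≠ c ∧ b ≠ d := by
    intro a b c d hX
    unfold Xing at hX
    omega
  obtain ⟨na1, na2, -, -, na3⟩ := hne xa1
  obtain ⟨nb1, nb2, -, -, nb3⟩ := hne xb1
  obtain ⟨nc1, nc2, -, -, nc3⟩ := hne xc1
  have ja := step a b c a' ha hb hcc ha' hbc hab hac na3 ab ac ia na1 na2
  have jb := step b a c b' hb ha hcc hb' hac hab.symm hbc nb3 aa ac ib nb1 nb2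
  have jc := step c a b c' hcc ha hb hc' hab hac.symm hbc.symm nc3 aa ab ic nc1 nc2
  -- the poles x, h
  let S : Finset V := {t a, t b, t c}
  have memS : ∀ z, z ∈ S ↔ z = t a ∨ z = t b ∨ z = t c := by
    intro z; simp [S]
  have hpol : Pol G {x} {h} S := by
    refine ⟨con_single x, con_single h, ?_, ?_, ?_, ?_, ?_⟩
    · rw [Set.disjoint_singleton]; exact hx.symm
    · intro s hs e
      rw [Set.mem_singleton_iff] at e
      rcases (memS s).1 hs with h' | h' | h' <;> rw [e] at h'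
      · exact (tx a ha).ne h'
      · exact (tx b hb).ne h'
      · exact (tx c hcc).ne h'
    · intro s hs e
      rw [Set.mem_singleton_iff] at e
      rcases (memS s).1 hs with h' | h' | h' <;> rw [e] at h'
      · exact th a ha h'.symm
      · exact th b hb h'.symm
      · exact th c hcc h'.symm
    · intro s hs
      refine ⟨x, rfl, ?_⟩
      rcases (memS s).1 hs with h' | h' | h' <;> rw [h']
      · exact tx a ha
      · exact tx b hb
      · exact tx c hcc
    · intro s hs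
      refine ⟨h, rfl, ?_⟩
      rcases (memS s).1 hs with h' | h' | h' <;> rw [h']
      · exact aa
      · exact ab
      · exact ac
  have lnk : ∀ p q r : ℕ, p < 6 → (∀ z, z ∈ S ↔ z = t p ∨ z = t q ∨ z = t r) →
      Jn G (Q4 x h (t q) (t r)) w (t p) → Lnk G (XX {x} {h} S) w (t p) := by
    rintro p q r hp hS ⟨Z, z1, z2, z3, z4⟩
    obtain ⟨Z', h1, h2, h3, h4⟩ := cut_off z3 z1 z2 (wt p hp)
    refine ⟨Z', h2, h3, ?_, h4⟩
    intro z hz hmem
    have hzZ := h1 hz
    have hz4 := z4 z hzZ.1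
    apply hz4
    rcases hmem with (e | e) | e
    · rw [Set.mem_singleton_iff.1 e]; simp [Q4]
    · rw [Set.mem_singleton_iff.1 e]; simp [Q4]
    · rcases (hS z).1 (Finset.mem_coe.1 e) with e | e | e
      · exact absurd e hzZ.2
      · rw [e]; simp [Q4]
      · rw [e]; simp [Q4]
  refine hPE V G {x} {h} S hs.lf.pg hpol w (t a) (t b) (t c) ((memS _).2 (Or.inl rfl))
    ((memS _).2 (Or.inr (Or.inl rfl))) ((memS _).2 (Or.inr (Or.inr rfl))) (tt a ha b hb hab)
    (tt a ha c hcc hac) (tt b hb c hcc hbc) ?_ ?_ ?_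
  · exact lnk a b c ha memS ja
  · exact lnk b a c hb (fun z => (memS z).trans (by tauto)) jb
  · exact lnk c a b hcc (fun z => (memS z).trans (by tauto)) jc

theorem w6s (hTE : TEStmt) (hQT : QTStmt) (hPE : PE1Stmt) : W6SStmt := by
  intro V G R x t hs hc
  have tR : ∀ n < 6, t n ∈ R := fun n hn => (Finset.mem_filter.1 (hc.mem n hn)).1
  have tx : ∀ n < 6, G.Adj x (t n) := fun n hn => (Finset.mem_filter.1 (hc.mem n hn)).2
  have tt : ∀ a < 6, ∀ b < 6, a ≠ b → t a ≠ t b := fun a ha b hb hab e => hab (hc.inj a ha b hb e)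
  refine ⟨hs, hc, ?_, ?_, ?_⟩
  · -- adj
    intro i hi j hj hij
    have hne : i ≠ j := by rintro rfl; exact hij.ne rfl
    rcases adj_index i hi j hj hne with h | ⟨k, hk, l, hl, k1, k2, l1, l2, hX⟩
    · exact h
    · exfalso
      obtain ⟨Z, z1, z2, z3, z4⟩ := hTE V G R x (t i) (t j) hs (tR i hi) (tR j hj) (tx i hi)
        (tx j hj) hij (t k) (tR k hk) (t l) (tR l hl) (tx k hk).ne.symm (tt k hk i hi k1)
        (tt k hk j hj k2) (tx l hl).ne.symm (tt l hl i hi l1) (tt l hl j hj l2)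
      have xZ : x ∉ Z := fun hxz => z4 x hxz (by simp)
      have xP : x ∉ ({t i, t j} : Set V) := by
        intro hmem
        rcases hmem with e | e
        · exact (tx i hi).ne e
        · exact (tx j hj).ne e
      obtain ⟨z, hz1, hz2⟩ := cross hc hi hk hj hl hX (con_pair (Or.inr hij)) z3 xP xZ (by simp)
        (by simp) z1 z2
      apply z4 z hz2
      rcases hz1 with rfl | hz1
      · simp
      · rw [Set.mem_singleton_iff.1 hz1]; simp
  · -- win
    intro h hx hD
    apply win_index (fun i => G.Adj h (t i))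
    · intro i hi ai ak
      interval_cases i
      · exact no_opp hQT hs hc hx hD (i := 0) (k := 3) (j := 1) (j' := 2) (l := 4) (l' := 5)
          (by decide) (by decide) (by decide) (by decide) (by decide) (by decide) (by decide)
          (by decide) (by decide) (by decide) (by decide) (by decide) (by decide) ai ak
      · exact no_opp hQT hs hc hx hD (i := 1) (k := 4) (j := 2) (j' := 3) (l := 5) (l' := 0)
          (by decide) (by decide) (by decide) (by decide) (by decide) (by decide) (by decide)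
          (by decide) (by decide) (by decide) (by decide) (by decide) (by decide) ai ak
      · exact no_opp hQT hs hc hx hD (i := 2) (k := 5) (j := 3) (j' := 4) (l := 0) (l' := 1)
          (by decide) (by decide) (by decide) (by decide) (by decide) (by decide) (by decide)
          (by decide) (by decide) (by decide) (by decide) (by decide) (by decide) ai ak
      · exact no_opp hQT hs hc hx hD (i := 3) (k := 0) (j := 1) (j' := 2) (l := 4) (l' := 5)
          (by decide) (by decide) (by decide) (by decide) (by decide) (by decide) (by decide)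
          (by decide) (by decide) (by decide) (by decide) (by decide) (by decide) ai ak
      · exact no_opp hQT hs hc hx hD (i := 4) (k := 1) (j := 2) (j' := 3) (l := 5) (l' := 0)
          (by decide) (by decide) (by decide) (by decide) (by decide) (by decide) (by decide)
          (by decide) (by decide) (by decide) (by decide) (by decide) (by decide) ai ak
      · exact no_opp hQT hs hc hx hD (i := 5) (k := 2) (j := 3) (j' := 4) (l := 0) (l' := 1)
          (by decide) (by decide) (by decide) (by decide) (by decide) (by decide) (by decide)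
          (by decide) (by decide) (by decide) (by decide) (by decide) (by decide) ai ak
    · rintro ⟨a0, a2, a4⟩
      exact no_alt hQT hPE hs hc hx hD (a := 0) (b := 2) (c := 4) (a' := 3) (b' := 5) (c' := 1)
        (by decide) (by decide) (by decide) (by decide) (by decide) (by decide) (by decide)
        (by decide) (by decide) (by decide) (by decide) (by decide) (by decide) (by decide)
        (by decide) (by decide) (by decide) (by decide) a0 a2 a4
    · rintro ⟨a1, a3, a5⟩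
      exact no_alt hQT hPE hs hc hx hD (a := 1) (b := 3) (c := 5) (a' := 4) (b' := 0) (c' := 2)
        (by decide) (by decide) (by decide) (by decide) (by decide) (by decide) (by decide)
        (by decide) (by decide) (by decide) (by decide) (by decide) (by decide) (by decide)
        (by decide) (by decide) (by decide) (by decide) a1 a3 a5
  · -- iso
    intro h hx hD i hi ai ak
    have hi1 : (i + 1) % 6 < 6 := Nat.mod_lt _ (by norm_num)
    have hi2 : (i + 2) % 6 < 6 := Nat.mod_lt _ (by norm_num)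
    have hne : i ≠ (i + 2) % 6 := by omega
    have hx1 : ∀ i < 6, Xing i ((i + 1) % 6) ((i + 2) % 6) ((i + 3) % 6) := by decide
    have hx2 : ∀ i < 6, Xing i ((i + 1) % 6) ((i + 2) % 6) ((i + 4) % 6) := by decide
    have hiso := iso_mid hQT hs hc hx hD hi hi1 hi2 (Nat.mod_lt (i + 3) (by norm_num))
      (Nat.mod_lt (i + 4) (by norm_num)) hne (hx1 i hi) (hx2 i hi) (by omega) ai ak
    have hqt := hQT V G R x h (t i) (t ((i + 2) % 6)) hs hx.symm (tt i hi _ hi2 hne) (tR i hi)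
      (tR _ hi2) (tx i hi) (tx _ hi2) ai ak
    obtain ⟨q1, q2, q3, q4⟩ := hqt.2.1 _ hiso
    refine ⟨q1.symm, q2.symm, ?_, fun hR => (q4 (Or.inr hR)).2, ?_⟩
    · intro r hr har
      by_contra hno
      push Not at hno
      have rQ : r ∉ Q4 x h (t i) (t ((i + 2) % 6)) := by
        intro hmem
        rcases hmem with e | e | e | e
        · exact hno.1 e
        · exact hno.2.1 e
        · exact hno.2.2.1 e
        · exact hno.2.2.2 e
      exact hiso.2.2 r hr rQ har.ne (jn_adj har.symm hiso.2.1 rQ)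
    · intro w hw hwh
      obtain ⟨wR, wx, wa⟩ := Finset.mem_filter.1 hw
      have wt : ∀ n < 6, w ≠ t n := fun n hn e => wa (e ▸ tx n hn)
      have wQ : w ∉ Q4 x h (t i) (t ((i + 2) % 6)) := by
        intro hmem
        rcases hmem with e | e | e | e
        · exact wx e
        · exact hwh e
        · exact wt i hi e
        · exact wt _ hi2 e
      have hnj : ¬ Jn G (Q4 x h (t i) (t ((i + 2) % 6))) w (t ((i + 1) % 6)) :=
        fun hj => hiso.2.2 w wR wQ (wt _ hi1) (jn_symm hj)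
      rcases hs.lf.lk w wR (t ((i + 1) % 6)) (tR _ hi1) (wt _ hi1) with hadj | ⟨c, -, c1, c2⟩
      · exact absurd (jn_adj hadj wQ hiso.2.1) hnj
      · by_cases hcQ : c ∈ Q4 x h (t i) (t ((i + 2) % 6))
        · rcases hcQ with e | e | e | e
          · rw [e] at c1
            exact absurd c1.symm wa
          · rw [e] at c1 c2
            exact Or.inr (Or.inr ⟨c1, c2⟩)
          · rw [e] at c1
            exact Or.inl c1
          · rw [Set.mem_singleton_iff.1 e] at c1
            exact Or.inr (Or.inl c1)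
        · exact absurd (jn_mid c1 c2 wQ hcQ hiso.2.1) hnj

end Pool.Agent.H79.RCQ.W6S
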